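import Mathlib

/-!
Tableau stabilization (MP_e8bda8_co).  For a permutation `w` of `{1, ..., n}` let `T_w^{(k)}` be the
skew tableau whose row `n + 1 - j` occupies columns `j, ..., j + k - 1` and contains
`w_j, w_j + n, ..., w_j + (k-1) n`.  We prove: the identity is the unique `w` with `stab w = n`.

The rectification of a skew tableau is computed by Schensted row insertion of its reading word
(rows read from bottom to top).
-/

namespace Pool.Agent.Results.MP_e8bda8_co.StabIdentity

/-- Schensted insertion of `x` into a row (an increasing list): the new row, and the bumped entry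
(the first entry larger than `x`) if there is one. -/
def bumpRow (x : ℕ) : List ℕ → List ℕ × Option ℕ
  | [] => ([x], none)
  | y :: ys => if x < y then (x :: ys, some y) else (y :: (bumpRow x ys).1, (bumpRow x ys).2)

/-- Row insertion of `x` into a tableau, given by its list of rows from top to bottom: an entry
bumped from a row is inserted into the next row. -/
def insertTab (x : ℕ) : List (List ℕ) → List (List ℕ)
  | [] => [[x]]
  | r :: rs =>
    match (bumpRow x r).2 with
    | none => (bumpRow x r).1 :: rs
    | some y => (bumpRow x r).1 :: insertTab y rs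

/-- successive insertion of the letters of the word `u`, from left to right -/
def insAll (T : List (List ℕ)) (u : List ℕ) : List (List ℕ) :=
  u.foldl (fun T x => insertTab x T) T

/-- A skew tableau, given by its list of rows from top to bottom; a row is given by its first
column and its list of entries from left to right. -/
abbrev SkewTab := List (ℕ × List ℕ)

/-- the reading word: rows read from bottom to top, each from left to right -/
def readingWord (T : SkewTab) : List ℕ := (T.reverse.map Prod.snd).flatten

/-- the rectification: the insertion tableau of the reading word, as its list of rows from top to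
bottom -/
def rect (T : SkewTab) : List (List ℕ) := insAll [] (readingWord T)

/-- `T_w^{(k)}`: with `j = 0, ..., n - 1`, the row with index `n - 1 - j` (counted from `0` at the
top) starts in column `j + 1` and contains `w_j + 1 + m n` for `m = 0, ..., k - 1`; the shift by
one turns the values `0, ..., n - 1` of `w` into `1, ..., n`. -/
def skewTab {n : ℕ} (w : Equiv.Perm (Fin n)) (k : ℕ) : SkewTab :=
  (List.ofFn (fun j : Fin n =>
    ((j : ℕ) + 1, (List.range k).map (fun m => (w j : ℕ) + 1 + m * n)))).reverse

/-- `w` stabilizes at `k`: every entry larger than `(k - 1) n` of `T_w^{(k)}` lies in the same row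
of the rectification as in `T_w^{(k)}` -/
def Stabilizes {n : ℕ} (w : Equiv.Perm (Fin n)) (k : ℕ) : Prop :=
  ∀ r < n, ∀ x ∈ ((skewTab w k).getD r (0, [])).2, (k - 1) * n < x →
    x ∈ (rect (skewTab w k)).getD r []

/-- the least `k ≥ 1` at which `w` stabilizes -/
noncomputable def stab {n : ℕ} (w : Equiv.Perm (Fin n)) : ℕ :=
  sInf {k | 1 ≤ k ∧ Stabilizes w k}

theorem insAll_nil (T : List (List ℕ)) : insAll T [] = T := rfl
theorem insAll_cons (T : List (List ℕ)) (x : ℕ) (u : List ℕ) :
    insAll T (x :: u) = insAll (insertTab x T) u := rfl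
theorem insAll_append (T : List (List ℕ)) (u v : List ℕ) :
    insAll T (u ++ v) = insAll (insAll T u) v := by
  simp [insAll, List.foldl_append]

def rowAfter : List ℕ → List ℕ → List ℕ
  | R, [] => R
  | R, y :: Y => rowAfter (bumpRow y R).1 Y

def bumped : List ℕ → List ℕ → List ℕ
  | _, [] => []
  | R, y :: Y => (bumpRow y R).2.toList ++ bumped (bumpRow y R).1 Y

theorem row0 (Y : List ℕ) : ∀ T : List (List ℕ),
    (insAll T Y).getD 0 [] = rowAfter (T.getD 0 []) Y := by
  induction Y with
  | nil => intro T; rfl
  | cons y Y ih =>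
    intro T
    rw [insAll_cons, ih]
    cases T with
    | nil => simp [insertTab, rowAfter, bumpRow]
    | cons R rs =>
      simp only [insertTab, rowAfter]
      cases h : (bumpRow y R).2 <;> simp

theorem rowS (Y : List ℕ) : ∀ T : List (List ℕ),
    (insAll T Y).tail = insAll T.tail (bumped (T.getD 0 []) Y) := by
  induction Y with
  | nil => intro T; rfl
  | cons y Y ih =>
    intro T
    rw [insAll_cons, ih]
    cases T with
    | nil => simp [insertTab, bumped, bumpRow]
    | cons R rs =>
      simp only [insertTab, bumped]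
      cases h : (bumpRow y R).2 with
      | none => simp [h]
      | some z => simp [h, insAll_cons]

def entF (T : List (List ℕ)) (Y : List ℕ) : ℕ → List ℕ
  | 0 => Y
  | r + 1 => bumped (T.getD r []) (entF T Y r)

theorem getD_tail (T : List (List ℕ)) (r : ℕ) : T.tail.getD r [] = T.getD (r + 1) [] := by
  cases T <;> simp

theorem entF_tail (T : List (List ℕ)) (Y : List ℕ) (r : ℕ) :
    entF T Y (r + 1) = entF T.tail (bumped (T.getD 0 []) Y) r := by
  induction r with
  | zero => rfl
  | succ r ih =>
    rw [entF, ih, entF, getD_tail]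

theorem rowR (r : ℕ) : ∀ (T : List (List ℕ)) (Y : List ℕ),
    (insAll T Y).getD r [] = rowAfter (T.getD r []) (entF T Y r) := by
  induction r with
  | zero => intro T Y; exact row0 Y T
  | succ r ih =>
    intro T Y
    rw [← getD_tail, rowS, ih, getD_tail, entF_tail]

/-- inserting larger letters does not touch a smaller first entry -/
theorem head_fix (r : ℕ) (Y : List ℕ) : ∀ R : List ℕ, (∀ y ∈ Y, r ≤ y) →
    rowAfter (r :: R) Y = r :: rowAfter R Y ∧ bumped (r :: R) Y = bumped R Y := by
  induction Y with
  | nil => intro R _; exact ⟨rfl, rfl⟩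
  | cons y Y ih =>
    intro R h
    have hy : ¬ y < r := not_lt.mpr (h y (by simp))
    have hb : bumpRow y (r :: R) = (r :: (bumpRow y R).1, (bumpRow y R).2) := by
      simp [bumpRow, hy]
    have := ih (bumpRow y R).1 (fun z hz => h z (by simp [hz]))
    simp only [rowAfter, bumped, hb]
    exact ⟨this.1, by rw [this.2]⟩

theorem nil_ins (Y : List ℕ) (h : Y.Pairwise (· < ·)) :
    rowAfter [] Y = Y ∧ bumped [] Y = [] := by
  induction Y with
  | nil => exact ⟨rfl, rfl⟩
  | cons y Y ih =>
    rw [List.pairwise_cons] at h
    have h1 := head_fix y Y [] (fun z hz => (h.1 z hz).le)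
    have h2 := ih h.2
    simp only [rowAfter, bumped, bumpRow, Option.toList, List.nil_append]
    exact ⟨by rw [h1.1, h2.1], by rw [h1.2, h2.2]⟩

/-- number of entries below `t` -/
def cnt (l : List ℕ) (t : ℕ) : ℕ := l.countP (fun x => decide (x < t))

theorem cnt_nil (t : ℕ) : cnt [] t = 0 := rfl
theorem cnt_cons (x : ℕ) (l : List ℕ) (t : ℕ) : cnt (x :: l) t = cnt l t + if x < t then 1 else 0 := by
  simp [cnt, List.countP_cons]

theorem cnt_zero_of (l : List ℕ) (t : ℕ) (h : ∀ x ∈ l, t ≤ x) : cnt l t = 0 := by
  simp only [cnt, List.countP_eq_zero]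
  intro x hx
  simpa using h x hx

/-- the queue description of inserting an increasing sequence into a row -/
theorem queue : ∀ (R Y : List ℕ), R.Pairwise (· < ·) → Y.Pairwise (· < ·) →
    (∀ t ∈ R, t ∉ Y) →
    (bumped R Y).Pairwise (· < ·) ∧ (rowAfter R Y).Pairwise (· < ·) ∧
    (∀ z ∈ bumped R Y, z ∈ R) ∧
    (∀ t, t ∈ rowAfter R Y ↔ (t ∈ R ∧ t ∉ bumped R Y) ∨ t ∈ Y) ∧
    (∀ r ∈ R, (r ∈ bumped R Y ↔ cnt (bumped R Y) r < cnt Y r)) ∧
    (∀ t, cnt (bumped R Y) t ≤ cnt Y t) := by
  intro R
  induction R with
  | nil =>
    intro Y _ hY _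
    rw [(nil_ins Y hY).1, (nil_ins Y hY).2]
    refine ⟨List.Pairwise.nil, hY, by simp, by simp, by simp, by simp [cnt_nil]⟩
  | cons r R ih =>
    intro Y hR hY hd
    rw [List.pairwise_cons] at hR
    cases Y with
    | nil =>
      refine ⟨List.Pairwise.nil, List.pairwise_cons.mpr hR, by simp [bumped], by simp [bumped, rowAfter],
        by simp [bumped, cnt_nil], by simp [bumped, cnt_nil]⟩
    | cons y Y =>
      have hY' := List.pairwise_cons.mp hY
      by_cases hyr : y < r
      · have hb : bumpRow y (r :: R) = (y :: R, some r) := by simp [bumpRow, hyr]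
        have h1 := head_fix y Y R (fun z hz => (hY'.1 z hz).le)
        have e1 : rowAfter (r :: R) (y :: Y) = y :: rowAfter R Y := by
          rw [rowAfter, hb]; exact h1.1
        have e2 : bumped (r :: R) (y :: Y) = r :: bumped R Y := by
          rw [bumped, hb]; simp [h1.2]
        obtain ⟨a1, a2, a3, a4, a5, a6⟩ := ih Y hR.2 hY'.2
          (fun t ht h => hd t (by simp [ht]) (by simp [h]))
        rw [e1, e2]
        refine ⟨?_, ?_, ?_, ?_, ?_, ?_⟩
        · rw [List.pairwise_cons]
          exact ⟨fun z hz => hR.1 z (a3 z hz), a1⟩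
        · rw [List.pairwise_cons]
          refine ⟨fun z hz => ?_, a2⟩
          rcases (a4 z).1 hz with h | h
          · exact lt_trans hyr (hR.1 z h.1)
          · exact hY'.1 z h
        · intro z hz
          rcases List.mem_cons.1 hz with h | h
          · simp [h]
          · simp [a3 z h]
        · intro t
          rw [List.mem_cons, a4 t]
          constructor
          · rintro (h | h | h)
            · right; simp [h]
            · left
              refine ⟨by simp [h.1], ?_⟩
              rw [List.mem_cons, not_or]
              exact ⟨ne_of_gt (hR.1 t h.1), h.2⟩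
            · right; simp [h]
          · rintro (h | h)
            · rcases List.mem_cons.1 h.1 with h' | h'
              · exact absurd (by simp [h']) h.2
              · right; left
                exact ⟨h', fun h2 => h.2 (by simp [h2])⟩
            · rcases List.mem_cons.1 h with h' | h'
              · left; exact h'
              · right; right; exact h'
        · intro s hs
          rcases List.mem_cons.1 hs with h | h
          · subst h
            have hz : cnt (s :: bumped R Y) s = 0 := by
              apply cnt_zero_of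
              intro x hx
              rcases List.mem_cons.1 hx with h | h
              · exact h.ge
              · exact (hR.1 x (a3 x h)).le
            rw [hz, cnt_cons, if_pos hyr]
            simp
          · have hrs : r < s := hR.1 s h
            rw [cnt_cons, cnt_cons, if_pos hrs, if_pos (lt_trans hyr hrs), List.mem_cons]
            have := a5 s h
            constructor
            · rintro (h' | h')
              · omega
              · have := this.1 h'; omega
            · intro h'
              right; exact this.2 (by omega)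
        · intro t
          rw [cnt_cons, cnt_cons]
          have := a6 t
          split_ifs <;> omega
      · have hne : r ≠ y := fun h => hd r (by simp) (by simp [h])
        have hry : r < y := lt_of_le_of_ne (not_lt.mp hyr) hne
        have hall : ∀ z ∈ (y :: Y), r ≤ z := by
          intro z hz
          rcases List.mem_cons.1 hz with h | h
          · rw [h]; exact hry.le
          · exact (lt_trans hry (hY'.1 z h)).le
        have hall' : ∀ z ∈ (y :: Y), r < z := by
          intro z hz
          rcases List.mem_cons.1 hz with h | h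
          · rw [h]; exact hry
          · exact (lt_trans hry (hY'.1 z h))
        have h1 := head_fix r (y :: Y) R hall
        obtain ⟨a1, a2, a3, a4, a5, a6⟩ := ih (y :: Y) hR.2 hY
          (fun t ht h => hd t (by simp [ht]) h)
        rw [h1.1, h1.2]
        refine ⟨a1, ?_, ?_, ?_, ?_, a6⟩
        · rw [List.pairwise_cons]
          refine ⟨fun z hz => ?_, a2⟩
          rcases (a4 z).1 hz with h | h
          · exact hR.1 z h.1
          · exact hall' z h
        · intro z hz; simp [a3 z hz]
        · intro t
          rw [List.mem_cons, a4 t]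
          constructor
          · rintro (h | h | h)
            · left
              refine ⟨by simp [h], fun h2 => ?_⟩
              have := hR.1 t (a3 t h2)
              omega
            · left; exact ⟨by simp [h.1], h.2⟩
            · right; exact h
          · rintro (h | h)
            · rcases List.mem_cons.1 h.1 with h' | h'
              · left; exact h'
              · right; left; exact ⟨h', h.2⟩
            · right; right; exact h
        · intro s hs
          rcases List.mem_cons.1 hs with h | h
          · subst h
            have hz : cnt (y :: Y) s = 0 := cnt_zero_of _ _ hall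
            constructor
            · intro h'
              have := hR.1 s (a3 s h')
              omega
            · intro h'; omega
          · exact a5 s h

section PartB


theorem cnt_lt_of_mem (l : List ℕ) (x t : ℕ) (hx : x ∈ l) (h : x < t) : cnt l x < cnt l t := by
  induction l with
  | nil => simp at hx
  | cons a l ih =>
    rw [cnt_cons, cnt_cons]
    have hmono : cnt l x ≤ cnt l t := by
      apply List.countP_mono_left
      intro z _ hz
      simp only [decide_eq_true_eq] at *
      omega
    rcases List.mem_cons.1 hx with h' | h'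
    · subst h'
      simp only [lt_irrefl, if_false, h, if_true]
      omega
    · have := ih h'
      split_ifs <;> omega

theorem cnt_mono (l : List ℕ) {s t : ℕ} (h : s ≤ t) : cnt l s ≤ cnt l t := by
  apply List.countP_mono_left
  intro z _ hz
  simp only [decide_eq_true_eq] at *
  omega

theorem cnt_eq_of (l : List ℕ) {s t : ℕ} (h : s ≤ t) (hno : ∀ x ∈ l, ¬ (s ≤ x ∧ x < t)) :
    cnt l t = cnt l s := by
  apply List.countP_congr
  intro z hz
  have := hno z hz
  simp only [decide_eq_true_eq]
  omega

theorem cnt_succ (l : List ℕ) (hl : l.Pairwise (· < ·)) (t : ℕ) :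
    cnt l (t + 1) = cnt l t + if t ∈ l then 1 else 0 := by
  induction l with
  | nil => simp [cnt_nil]
  | cons a l ih =>
    rw [List.pairwise_cons] at hl
    rw [cnt_cons, cnt_cons, ih hl.2]
    by_cases ha : t = a
    · subst ha
      have : t ∉ l := fun h => absurd (hl.1 t h) (lt_irrefl _)
      simp [this]
    · simp only [List.mem_cons, ha, false_or]
      have : a < t + 1 ↔ a < t := by omega
      simp only [this]
      omega

variable (n k : ℕ) (W : ℕ → ℕ)

/-- the entries of block `b` -/
def blk (b : ℕ) : List ℕ := (List.range k).map (fun m => W b + m * n)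

/-- tableau after inserting the first `i` blocks -/
def tab : ℕ → List (List ℕ)
  | 0 => []
  | i + 1 => insAll (tab i) (blk n k W i)

def Row (i r : ℕ) : List ℕ := (tab n k W i).getD r []
def Ent (i r : ℕ) : List ℕ := entF (tab n k W i) (blk n k W i) r

theorem Row_succ (i r : ℕ) : Row n k W (i + 1) r = rowAfter (Row n k W i r) (Ent n k W i r) := by
  rw [Row, tab, rowR]; rfl

theorem Ent_zero (i : ℕ) : Ent n k W i 0 = blk n k W i := rfl
theorem Ent_succ (i r : ℕ) : Ent n k W i (r + 1) = bumped (Row n k W i r) (Ent n k W i r) := rfl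

structure Hyp : Prop where
  npos : 0 < n
  wpos : ∀ b < n, 1 ≤ W b
  wle : ∀ b < n, W b ≤ n
  winj : ∀ b < n, ∀ c < n, W b = W c → b = c

variable {n k W}

theorem Hyp.uniq (h : Hyp n W) {b c m l : ℕ} (hb : b < n) (hc : c < n)
    (e : W b + m * n = W c + l * n) : b = c ∧ m = l := by
  have h1 := h.wpos b hb
  have h2 := h.wle b hb
  have h3 := h.wpos c hc
  have h4 := h.wle c hc
  have hml : m = l := by
    rcases lt_trichotomy m l with hlt | heq | hgt
    · exfalso
      have : (m + 1) * n ≤ l * n := Nat.mul_le_mul_right n hlt
      nlinarith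
    · exact heq
    · exfalso
      have : (l + 1) * n ≤ m * n := Nat.mul_le_mul_right n hgt
      nlinarith
  subst hml
  exact ⟨h.winj b hb c hc (by omega), rfl⟩

theorem mem_blk {b t : ℕ} : t ∈ blk n k W b ↔ ∃ m < k, t = W b + m * n := by
  simp only [blk, List.mem_map, List.mem_range]
  constructor
  · rintro ⟨m, hm, rfl⟩; exact ⟨m, hm, rfl⟩
  · rintro ⟨m, hm, rfl⟩; exact ⟨m, hm, rfl⟩

theorem blk_sorted (h : 0 < n) (b : ℕ) : (blk n k W b).Pairwise (· < ·) := by
  rw [blk, List.pairwise_map]
  apply List.Pairwise.imp _ List.pairwise_lt_range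
  intro a c hac
  have : (a + 1) * n ≤ c * n := Nat.mul_le_mul_right n hac
  nlinarith

/-- invariants of the tableau after `i` blocks -/
structure Inv (n k : ℕ) (W : ℕ → ℕ) (i : ℕ) : Prop where
  sorted : ∀ r, (Row n k W i r).Pairwise (· < ·)
  upper : ∀ r t, t ∈ Row n k W i r → ∃ b m, b + r < i ∧ m < k ∧ t = W b + m * n
  disj : ∀ r s t, t ∈ Row n k W i r → t ∈ Row n k W i s → r = s
  total : ∀ b m, b < i → m < k → ∃ r, W b + m * n ∈ Row n k W i r

structure Stage (n k : ℕ) (W : ℕ → ℕ) (i : ℕ) : Prop where
  sorted : ∀ r, (Ent n k W i r).Pairwise (· < ·)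
  sub : ∀ r t, t ∈ Ent n k W i (r + 1) → t ∈ Row n k W i r
  dj : ∀ r t, t ∈ Row n k W i r → t ∉ Ent n k W i r
  mem : ∀ r t, t ∈ Row n k W (i + 1) r ↔
    (t ∈ Row n k W i r ∧ t ∉ Ent n k W i (r + 1)) ∨ t ∈ Ent n k W i r
  rule : ∀ r t, t ∈ Row n k W i r →
    (t ∈ Ent n k W i (r + 1) ↔ cnt (Ent n k W i (r + 1)) t < cnt (Ent n k W i r) t)
  le : ∀ r t, cnt (Ent n k W i (r + 1)) t ≤ cnt (Ent n k W i r) t

theorem stage_of_inv (h : Hyp n W) {i : ℕ} (hi : i < n) (I : Inv n k W i) : Stage n k W i := by
  have key : ∀ r, (Ent n k W i r).Pairwise (· < ·) ∧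
      (∀ t, t ∈ Row n k W i r → t ∉ Ent n k W i r) := by
    intro r
    induction r with
    | zero =>
      rw [Ent_zero]
      refine ⟨blk_sorted h.npos i, fun t ht ht' => ?_⟩
      obtain ⟨b, m, hb, hm, e⟩ := I.upper 0 t ht
      obtain ⟨l, hl, e'⟩ := mem_blk.1 ht'
      have := (h.uniq (b := b) (c := i) (m := m) (l := l) (by omega) hi (by omega)).1
      omega
    | succ r ih =>
      obtain ⟨a1, a2, a3, a4, a5, a6⟩ := queue (Row n k W i r) (Ent n k W i r) (I.sorted r) ih.1 ih.2
      rw [Ent_succ]
      refine ⟨a1, fun t ht ht' => ?_⟩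
      have := I.disj r (r + 1) t (a3 t ht') ht
      omega
  have q := fun r => queue (Row n k W i r) (Ent n k W i r) (I.sorted r) (key r).1 (key r).2
  refine ⟨fun r => (key r).1, ?_, fun r => (key r).2, ?_, ?_, ?_⟩
  · intro r t ht; exact (q r).2.2.1 t ht
  · intro r t; rw [Row_succ]; exact (q r).2.2.2.1 t
  · intro r t ht; exact (q r).2.2.2.2.1 t ht
  · intro r t; exact (q r).2.2.2.2.2 t

theorem inv_zero : Inv n k W 0 := by
  have hr : ∀ r, Row n k W 0 r = [] := by intro r; simp [Row, tab]
  refine ⟨?_, ?_, ?_, ?_⟩
  · intro r; rw [hr]; exact List.Pairwise.nil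
  · intro r t ht; rw [hr] at ht; simp at ht
  · intro r s t ht; rw [hr] at ht; simp at ht
  · intro b m hb; omega

theorem inv_succ (h : Hyp n W) {i : ℕ} (hi : i < n) (I : Inv n k W i) : Inv n k W (i + 1) := by
  have S := stage_of_inv h hi I
  have entcase : ∀ r t, t ∈ Ent n k W i r → ∃ b m, b + r < i + 1 ∧ m < k ∧ t = W b + m * n := by
    intro r t ht
    cases r with
    | zero =>
      rw [Ent_zero] at ht
      obtain ⟨m, hm, e⟩ := mem_blk.1 ht
      exact ⟨i, m, by omega, hm, e⟩
    | succ r =>
      obtain ⟨b, m, hb, hm, e⟩ := I.upper r t (S.sub r t ht)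
      exact ⟨b, m, by omega, hm, e⟩
  refine ⟨?_, ?_, ?_, ?_⟩
  · intro r
    rw [Row_succ]
    exact (queue (Row n k W i r) (Ent n k W i r) (I.sorted r) (S.sorted r) (S.dj r)).2.1
  · intro r t ht
    rcases (S.mem r t).1 ht with ht | ht
    · obtain ⟨b, m, hb, hm, e⟩ := I.upper r t ht.1
      exact ⟨b, m, by omega, hm, e⟩
    · exact entcase r t ht
  · have aux : ∀ r s t, t ∈ Ent n k W i r → t ∈ Row n k W i s → t ∉ Ent n k W i (s + 1) → False := by
      intro r s t h1 h2 h3
      cases r with
      | zero =>
        rw [Ent_zero] at h1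
        obtain ⟨m, hm, e⟩ := mem_blk.1 h1
        obtain ⟨b, m', hb, hm', e'⟩ := I.upper s t h2
        have := (h.uniq (b := b) (c := i) (m := m') (l := m) (by omega) hi (by omega)).1
        omega
      | succ r =>
        have := I.disj r s t (S.sub r t h1) h2
        subst this
        exact h3 h1
    have aux2 : ∀ r s t, t ∈ Ent n k W i r → t ∈ Ent n k W i s → r ≤ s := by
      intro r s t h1 h2
      cases r with
      | zero => omega
      | succ r =>
        cases s with
        | zero =>
          exfalso
          rw [Ent_zero] at h2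
          obtain ⟨m, hm, e⟩ := mem_blk.1 h2
          obtain ⟨b, m', hb, hm', e'⟩ := I.upper r t (S.sub r t h1)
          have := (h.uniq (b := b) (c := i) (m := m') (l := m) (by omega) hi (by omega)).1
          omega
        | succ s =>
          have := I.disj r s t (S.sub r t h1) (S.sub s t h2)
          omega
    intro r s t h1 h2
    rcases (S.mem r t).1 h1 with h1 | h1
    · rcases (S.mem s t).1 h2 with h2 | h2
      · exact I.disj r s t h1.1 h2.1
      · exact (aux s r t h2 h1.1 h1.2).elim
    · rcases (S.mem s t).1 h2 with h2 | h2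
      · exact (aux r s t h1 h2.1 h2.2).elim
      · exact le_antisymm (aux2 r s t h1 h2) (aux2 s r t h2 h1)
  · intro b m hb hm
    rcases Nat.lt_succ_iff_lt_or_eq.1 hb with hb | hb
    · obtain ⟨r, hr⟩ := I.total b m hb hm
      by_cases he : W b + m * n ∈ Ent n k W i (r + 1)
      · exact ⟨r + 1, (S.mem _ _).2 (Or.inr he)⟩
      · exact ⟨r, (S.mem _ _).2 (Or.inl ⟨hr, he⟩)⟩
    · subst hb
      refine ⟨0, (S.mem _ _).2 (Or.inr ?_)⟩
      rw [Ent_zero]
      exact mem_blk.2 ⟨m, hm, rfl⟩

theorem inv_all (h : Hyp n W) : ∀ i ≤ n, Inv n k W i := by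
  intro i
  induction i with
  | zero => intro _; exact inv_zero
  | succ i ih => intro hi; exact inv_succ h (by omega) (ih (by omega))

theorem stage_all (h : Hyp n W) {i : ℕ} (hi : i < n) : Stage n k W i :=
  stage_of_inv h hi (inv_all h i hi.le)


end PartB

section PartC


variable {n k : ℕ} {W : ℕ → ℕ}

def dl (W : ℕ → ℕ) (l : ℕ) : ℕ := if W (l + 1) < W l then 1 else 0
def H (W : ℕ → ℕ) (s : ℕ) : ℕ := ∑ l ∈ Finset.range s, dl W l
def K (W : ℕ → ℕ) (i s : ℕ) : ℤ := (i : ℤ) - s - 2 - dl W 0 + H W s

theorem H_succ (W : ℕ → ℕ) (s : ℕ) : H W (s + 1) = H W s + dl W s := by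
  simp [H, Finset.sum_range_succ]

theorem H_ge (W : ℕ → ℕ) (s : ℕ) : dl W 0 ≤ H W (s + 1) := by
  unfold H
  rw [Finset.sum_range_succ']
  omega

theorem K_level (W : ℕ → ℕ) (i s : ℕ) : K W (i + 1) s = K W i s + 1 := by
  unfold K; push_cast; ring

theorem K_diag (W : ℕ → ℕ) (i s : ℕ) : K W (i + 1) (s + 1) = K W i s + dl W s := by
  unfold K; rw [H_succ]; push_cast; ring

theorem K_down (W : ℕ → ℕ) (i s : ℕ) : K W i (s + 1) = K W i s - 1 + dl W s := by
  unfold K; rw [H_succ]; push_cast; ring

def Claim (n k : ℕ) (W : ℕ → ℕ) (i s : ℕ) : Prop :=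
  ∀ r a m, a ≤ s → m < k → (W s : ℤ) + K W i s * n < (W a + m * n : ℕ) →
    W a + m * n ∈ Row n k W i r → i ≤ r + s + 1

theorem claim_step (h : Hyp n W) {i s : ℕ} (hi : i < n) (hs : s < i)
    (C0 : Claim n k W i s) (C1 : Claim n k W (i + 1) (s + 1))
    (C2 : ∀ s', s = s' + 1 → Claim n k W i s') : Claim n k W (i + 1) s := by
  have I := inv_all (k := k) h i hi.le
  have I' := inv_all (k := k) h (i + 1) hi
  have S := stage_all (k := k) h hi
  have hn : (0 : ℤ) < n := by exact_mod_cast h.npos
  intro r a m ha hm hlt hmem
  -- thresholds at the lower level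
  have th0 : ∀ x : ℕ, (W s : ℤ) + K W (i + 1) s * n < x → (W s : ℤ) + K W i s * n < x := by
    intro x hx
    rw [K_level] at hx
    nlinarith
  have th2 : ∀ s', s = s' + 1 → ∀ x : ℕ, (W s : ℤ) + K W (i + 1) s * n < x →
      (W s' : ℤ) + K W i s' * n < x := by
    intro s' hs' x hx
    subst hs'
    rw [K_diag] at hx
    have h1 := h.wpos (s' + 1) (by omega)
    have h2 := h.wle s' (by omega)
    unfold dl at hx
    split_ifs at hx with hd
    · push_cast at hx
      have : (W s' : ℤ) ≤ n := by exact_mod_cast h2
      have : (1 : ℤ) ≤ W (s' + 1) := by exact_mod_cast h1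
      nlinarith
    · have hne : W (s' + 1) ≠ W s' := fun e => by
        have := h.winj _ (by omega) _ (by omega) e
        omega
      have : W s' < W (s' + 1) := by omega
      have : (W s' : ℤ) < W (s' + 1) := by exact_mod_cast this
      push_cast at hx
      nlinarith
  rcases (S.mem r _).1 hmem with ⟨hr, hne⟩ | he
  · have g0 := C0 r a m ha hm (th0 _ hlt) hr
    by_contra hcon
    have hrs : r + s + 1 = i := by omega
    have has : a = s := by
      by_contra hne'
      have hs1 : s = (s - 1) + 1 := by omega
      have := C2 (s - 1) hs1 r a m (by omega) hm (th2 (s - 1) hs1 _ hlt) hr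
      omega
    subst has
    -- the previous entry of block `a+1`
    have hKm : K W (i + 1) a < m := by
      push_cast at hlt
      by_contra hc
      push Not at hc
      nlinarith
    have hK0 : 0 ≤ K W (i + 1) a + dl W a := by
      unfold K
      have := H_ge W a
      rw [H_succ] at this
      push_cast
      have h3 : (dl W 0 : ℤ) ≤ H W a + dl W a := by exact_mod_cast this
      have h4 : (a : ℤ) + 1 ≤ i := by exact_mod_cast hs
      linarith
    have hw1 := h.wpos (a + 1) (by omega)
    have hw2 := h.wle (a + 1) (by omega)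
    have hw3 := h.wpos a (by omega)
    have hw4 := h.wle a (by omega)
    obtain ⟨m1, hm1⟩ : ∃ m1 : ℕ, (m1 : ℤ) = m - 1 + dl W a := by
      have h7 : 1 ≤ m + dl W a := by
        have : (0 : ℤ) < m + dl W a := by linarith
        have : 0 < m + dl W a := by exact_mod_cast this
        omega
      refine ⟨m + dl W a - 1, ?_⟩
      rw [Nat.cast_sub h7]
      push_cast
      ring
    have hm1k : m1 < k := by
      have : (m1 : ℤ) ≤ m := by
        rw [hm1]; unfold dl; split_ifs <;> push_cast <;> omega
      have : m1 ≤ m := by exact_mod_cast this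
      omega
    have hlo : W a + m * n < W (a + 1) + m1 * n + n := by
      have : (W a : ℤ) + m * n < W (a + 1) + m1 * n + n := by
        rw [hm1]
        unfold dl
        have q1 : (1 : ℤ) ≤ W (a + 1) := by exact_mod_cast hw1
        have q2 : (W a : ℤ) ≤ n := by exact_mod_cast hw4
        split_ifs with hd
        · push_cast; nlinarith
        · have hne' : W (a + 1) ≠ W a := fun e => by
            have := h.winj _ (by omega) _ (by omega) e
            omega
          have : (W a : ℤ) < W (a + 1) := by
            have : W a < W (a + 1) := by omega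
            exact_mod_cast this
          push_cast; nlinarith
      exact_mod_cast this
    have hhi : W (a + 1) + m1 * n < W a + m * n := by
      have : (W (a + 1) : ℤ) + m1 * n < W a + m * n := by
        rw [hm1]
        unfold dl
        have q1 : (1 : ℤ) ≤ W a := by exact_mod_cast hw3
        have q2 : (W (a + 1) : ℤ) ≤ n := by exact_mod_cast hw2
        split_ifs with hd
        · have : (W (a + 1) : ℤ) < W a := by exact_mod_cast hd
          push_cast; nlinarith
        · push_cast; nlinarith
      exact_mod_cast this
    have hth1 : (W a : ℤ) + K W (i + 1) a * n < (W (a + 1) + m1 * n : ℕ) := by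
      -- t1 > theta
      have hc : K W (i + 1) a ≤ m - 1 := by omega
      have : (W a : ℤ) + (m - 1) * n < (W (a + 1) + m1 * n : ℕ) := by
        have : ((W a + m * n : ℕ) : ℤ) < ((W (a + 1) + m1 * n + n : ℕ) : ℤ) := by exact_mod_cast hlo
        push_cast at this ⊢
        linarith
      nlinarith
    set t := W a + m * n with ht
    set t1 := W (a + 1) + m1 * n with ht1
    have ht1E : t1 ∈ Ent n k W i r := by
      obtain ⟨r1, hr1⟩ := I'.total (a + 1) m1 (by omega) hm1k
      have c1 := C1 r1 (a + 1) m1 le_rfl hm1k ?_ hr1
      · obtain ⟨b, l, hb, hl, e⟩ := I'.upper r1 _ hr1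
        have := (h.uniq (b := a + 1) (c := b) (m := m1) (l := l) (by omega) (by omega) e).1
        subst this
        have hr1r : r1 = r := by omega
        subst hr1r
        rcases (S.mem r1 _).1 hr1 with ⟨hx, _⟩ | hx
        · obtain ⟨b, l, hb, hl, e⟩ := I.upper r1 _ hx
          have := (h.uniq (b := a + 1) (c := b) (m := m1) (l := l) (by omega) (by omega) e).1
          omega
        · exact hx
      · rw [K_down]
        have hc : K W (i + 1) a ≤ m - 1 := by omega
        have : (K W (i + 1) a - 1 + dl W a) < (m1 : ℤ) := by rw [hm1]; linarith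
        push_cast
        nlinarith
    have hnone : ∀ x ∈ Ent n k W i (r + 1), ¬ (t1 ≤ x ∧ x < t) := by
      rintro x hx ⟨hx1, hx2⟩
      have hxr := S.sub r x hx
      obtain ⟨b, l, hb, hl, e⟩ := I.upper r x hxr
      -- b ≤ a
      rcases Nat.lt_or_ge b a with hba | hba
      · -- b < a : a = (a-1)+1
        have hs1 : a = (a - 1) + 1 := by omega
        have hth : (W a : ℤ) + K W (i + 1) a * n < (x : ℤ) := by
          have : (t1 : ℤ) ≤ x := by exact_mod_cast hx1
          linarith
        have := C2 (a - 1) hs1 r b l (by omega) hl (by rw [← e]; exact th2 (a - 1) hs1 _ hth)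
          (by rw [← e]; exact hxr)
        omega
      · have hba : b = a := by omega
        subst hba
        -- x = W b + l n between t1 and t, t - n < t1
        rw [e] at hx2 hx1
        have : l < m := by
          by_contra hc
          push Not at hc
          have := Nat.mul_le_mul_right n hc
          omega
        have : (l + 1) * n ≤ m * n := Nat.mul_le_mul_right n this
        have : l * n + n ≤ m * n := by linarith
        omega
    apply hne
    rw [S.rule r _ hr]
    calc cnt (Ent n k W i (r + 1)) t = cnt (Ent n k W i (r + 1)) t1 :=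
          cnt_eq_of _ hhi.le hnone
      _ ≤ cnt (Ent n k W i r) t1 := S.le r t1
      _ < cnt (Ent n k W i r) t := cnt_lt_of_mem _ _ _ ht1E hhi
  · cases r with
    | zero =>
      exfalso
      rw [Ent_zero] at he
      obtain ⟨l, hl, e⟩ := mem_blk.1 he
      have := (h.uniq (b := a) (c := i) (m := m) (l := l) (by omega) hi e).1
      omega
    | succ r =>
      have := C0 r a m ha hm (th0 _ hlt) (S.sub r _ he)
      omega

theorem claim_all (h : Hyp n W) : ∀ i ≤ n, ∀ s < i, Claim n k W i s := by
  intro i
  induction i with
  | zero => intro _ s hs; omega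
  | succ i ih =>
    intro hi
    have ih' := ih (by omega)
    have key : ∀ j ≤ i, Claim n k W (i + 1) (i - j) := by
      intro j
      induction j with
      | zero =>
        intro _ r a m _ _ _ _
        omega
      | succ j ihj =>
        intro hj
        have hs : i - (j + 1) < i := by omega
        have e : i - (j + 1) + 1 = i - j := by omega
        refine claim_step h (by omega) hs (ih' _ hs) ?_ ?_
        · rw [e]; exact ihj (by omega)
        · intro s' hs'
          exact ih' s' (by omega)
    intro s hs
    have := key (i - s) (by omega)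
    rwa [show i - (i - s) = s by omega] at this


end PartC

section PartD


variable {n k : ℕ} {W : ℕ → ℕ}

def asc (W : ℕ → ℕ) (l : ℕ) : ℕ := if W l < W (l + 1) then 1 else 0

theorem cnt_blk_eq (b t : ℕ) :
    cnt (blk n k W b) t = (List.range k).countP (fun m => decide (W b + m * n < t)) := by
  rw [cnt, blk, List.countP_map]
  rfl

theorem cnt_base (h : Hyp n W) {i : ℕ} (hi : i + 1 < n) (t : ℕ) :
    cnt (blk n k W i) t ≤ cnt (blk n k W (i + 1)) t + asc W i := by
  rw [cnt_blk_eq, cnt_blk_eq]
  unfold asc
  split_ifs with hd
  · induction k with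
    | zero => simp
    | succ k ih =>
      rw [List.range_succ, List.countP_append, List.countP_append]
      by_cases hk : W i + k * n < t
      · have hall : (List.range k).countP (fun m => decide (W (i + 1) + m * n < t)) = k := by
          have : (List.range k).countP (fun m => decide (W (i + 1) + m * n < t)) =
              (List.range k).length := by
            rw [List.countP_eq_length]
            intro m hm
            have hm := List.mem_range.1 hm
            have h1 := h.wle (i + 1) hi
            have h2 : (m + 1) * n ≤ k * n := Nat.mul_le_mul_right n hm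
            have h3 : m * n + n ≤ k * n := by linarith
            have h4 := h.wpos i (by omega)
            simp only [decide_eq_true_eq]
            omega
          rw [this, List.length_range]
        have hle : (List.range k).countP (fun m => decide (W i + m * n < t)) ≤ k := by
          have := List.countP_le_length (p := fun m => decide (W i + m * n < t)) (l := List.range k)
          rwa [List.length_range] at this
        rw [hall]
        have h1 : ([k].countP fun m => decide (W i + m * n < t)) ≤ 1 := by
          have := List.countP_le_length (p := fun m => decide (W i + m * n < t)) (l := [k])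
          simpa using this
        omega
      · have : ([k].countP fun m => decide (W i + m * n < t)) = 0 := by simp [hk]
        omega
  · have : (List.range k).countP (fun m => decide (W i + m * n < t)) ≤
        (List.range k).countP (fun m => decide (W (i + 1) + m * n < t)) := by
      apply List.countP_mono_left
      intro m _ hm
      simp only [decide_eq_true_eq] at *
      omega
    omega

theorem d_step (h : Hyp n W) {i : ℕ} (hi : i + 1 < n) (c r : ℕ)
    (hyp : ∀ t, cnt (Ent n k W i r) t ≤ cnt (Ent n k W (i + 1) r) t + c) :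
    ∀ t, cnt (Ent n k W i r) t ≤ cnt (Ent n k W (i + 1) (r + 1)) t + c := by
  have S := stage_all (k := k) h (i := i) (by omega)
  have S' := stage_all (k := k) h (i := i + 1) hi
  intro t
  induction t with
  | zero =>
    rw [cnt_zero_of _ 0 (fun x _ => Nat.zero_le x)]
    omega
  | succ t ih =>
    rw [cnt_succ _ (S.sorted r), cnt_succ _ (S'.sorted (r + 1))]
    by_cases ht : t ∈ Ent n k W i r
    · have hrow : t ∈ Row n k W (i + 1) r := (S.mem r t).2 (Or.inr ht)
      by_cases ht' : t ∈ Ent n k W (i + 1) (r + 1)
      · rw [if_pos ht, if_pos ht']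
        omega
      · rw [if_pos ht, if_neg ht']
        have h1 := mt (S'.rule r t hrow).2 ht'
        push Not at h1
        have h2 := hyp (t + 1)
        rw [cnt_succ _ (S.sorted r), cnt_succ _ (S'.sorted r), if_pos ht,
          if_neg (S'.dj r t hrow)] at h2
        omega
    · rw [if_neg ht]
      omega

theorem d_all (h : Hyp n W) {i : ℕ} (hi : i + 1 < n) (r : ℕ) :
    (∀ t, cnt (Ent n k W i r) t ≤ cnt (Ent n k W (i + 1) r) t + asc W i) ∧
    (∀ t, cnt (Ent n k W i r) t ≤ cnt (Ent n k W (i + 1) (r + 1)) t + asc W i) := by
  have S := stage_all (k := k) h (i := i) (by omega)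
  induction r with
  | zero =>
    have h0 : ∀ t, cnt (Ent n k W i 0) t ≤ cnt (Ent n k W (i + 1) 0) t + asc W i := by
      intro t; rw [Ent_zero, Ent_zero]; exact cnt_base h hi t
    exact ⟨h0, d_step h hi _ 0 h0⟩
  | succ r ih =>
    have h1 : ∀ t, cnt (Ent n k W i (r + 1)) t ≤ cnt (Ent n k W (i + 1) (r + 1)) t + asc W i :=
      fun t => (S.le r t).trans (ih.2 t)
    exact ⟨h1, d_step h hi _ (r + 1) h1⟩

def A (W : ℕ → ℕ) (i : ℕ) : ℕ := ∑ l ∈ Finset.range i, asc W l

theorem A_succ (W : ℕ → ℕ) (i : ℕ) : A W (i + 1) = A W i + asc W i := by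
  simp [A, Finset.sum_range_succ]

theorem d_chain (h : Hyp n W) (i : ℕ) (hi : i < n) (t : ℕ) :
    cnt (blk n k W 0) t ≤ cnt (Ent n k W i i) t + A W i := by
  induction i with
  | zero => rw [Ent_zero]; omega
  | succ i ih =>
    have h1 := ih (by omega)
    have h2 := (d_all (k := k) h hi i).2 t
    rw [A_succ]
    omega

/-- longest strictly decreasing subsequence with entries below `a` -/
def L : List ℕ → ℕ → ℕ
  | [], _ => 0
  | x :: w, a => max (L w a) (if x < a then 1 + L w x else 0)

theorem L_mono (w : List ℕ) : ∀ {a b : ℕ}, a ≤ b → L w a ≤ L w b := by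
  induction w with
  | nil => intro a b _; simp [L]
  | cons x w ih =>
    intro a b h
    simp only [L]
    apply max_le_max (ih h)
    split_ifs with h1 h2 h2
    · exact le_rfl
    · omega
    · omega
    · exact le_rfl

theorem L_skip (u q : List ℕ) (a : ℕ) : L q a ≤ L (u ++ q) a := by
  induction u with
  | nil => simp
  | cons x u ih => simp only [List.cons_append, L]; exact le_trans ih (le_max_left _ _)

theorem L_pick (u q : List ℕ) {x a : ℕ} (hx : x ∈ u) (hxa : x < a) :
    1 + L q x ≤ L (u ++ q) a := by
  induction u with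
  | nil => simp at hx
  | cons y u ih =>
    simp only [List.cons_append, L]
    rcases List.mem_cons.1 hx with h | h
    · subst h
      rw [if_pos hxa]
      exact le_trans (by have := L_skip u q x; omega) (le_max_right _ _)
    · exact le_trans (ih h) (le_max_left _ _)

/-- for an increasing row at most one entry can be picked -/
theorem L_row (R q : List ℕ) (hR : R.Pairwise (· ≤ ·)) (M : ℕ) : ∀ a,
    L q a ≤ M → (∀ r ∈ R, r < a → 1 + L q r ≤ M) → L (R ++ q) a ≤ M := by
  induction R with
  | nil => intro a h _; simpa using h
  | cons x R ih =>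
    rw [List.pairwise_cons] at hR
    intro a h1 h2
    simp only [List.cons_append, L]
    apply max_le
    · exact ih hR.2 a h1 (fun r hr hra => h2 r (by simp [hr]) hra)
    · split_ifs with hxa
      · have : L (R ++ q) x ≤ L q x := by
          clear ih h1 h2
          have : ∀ R' : List ℕ, (∀ r ∈ R', x ≤ r) → L (R' ++ q) x ≤ L q x := by
            intro R'
            induction R' with
            | nil => intro _; simp
            | cons y R' ih' =>
              intro hh
              simp only [List.cons_append, L]
              apply max_le (ih' (fun r hr => hh r (by simp [hr])))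
              have := hh y (by simp)
              rw [if_neg (by omega)]
              omega
          exact this R hR.1
        have := h2 x (by simp) hxa
        omega
      · omega

def Dom (u' u : List ℕ) : Prop := ∀ q a, L (u' ++ q) a ≤ L (u ++ q) a

theorem Dom.refl (u : List ℕ) : Dom u u := fun _ _ => le_rfl
theorem Dom.trans {u v w : List ℕ} (h1 : Dom u v) (h2 : Dom v w) : Dom u w :=
  fun q a => (h1 q a).trans (h2 q a)
theorem Dom.right {u v : List ℕ} (h : Dom u v) (p : List ℕ) : Dom (u ++ p) (v ++ p) := by
  intro q a
  rw [List.append_assoc, List.append_assoc]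
  exact h _ a
theorem Dom.left {u v : List ℕ} (h : Dom u v) (p : List ℕ) : Dom (p ++ u) (p ++ v) := by
  intro q
  induction p with
  | nil => intro a; simpa using h q a
  | cons x p ih =>
    intro a
    simp only [List.cons_append, L]
    apply max_le_max (ih a)
    split_ifs
    · have := ih x; simp only [List.append_assoc] at this ⊢; omega
    · exact le_rfl

theorem bump_none (x : ℕ) (R : List ℕ) (h : (bumpRow x R).2 = none) :
    (bumpRow x R).1 = R ++ [x] := by
  induction R with
  | nil => simp [bumpRow]
  | cons y R ih =>
    by_cases hxy : x < y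
    · simp [bumpRow, hxy] at h
    · simp only [bumpRow, hxy, if_false] at h ⊢
      rw [ih h]; rfl

theorem bump_mem (x : ℕ) (R : List ℕ) : x ∈ (bumpRow x R).1 := by
  induction R with
  | nil => simp [bumpRow]
  | cons y R ih =>
    by_cases hxy : x < y
    · simp [bumpRow, hxy]
    · simp [bumpRow, hxy, ih]

theorem bump_sub (x : ℕ) (R : List ℕ) : ∀ r ∈ (bumpRow x R).1, r = x ∨ r ∈ R := by
  induction R with
  | nil => simp [bumpRow]
  | cons y R ih =>
    by_cases hxy : x < y
    · intro r hr
      simp only [bumpRow, hxy, if_true, List.mem_cons] at hr ⊢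
      tauto
    · intro r hr
      simp only [bumpRow, hxy, if_false, List.mem_cons] at hr ⊢
      rcases hr with hr | hr
      · tauto
      · have := ih r hr; tauto

theorem bump_sorted (x : ℕ) (R : List ℕ) (hR : R.Pairwise (· ≤ ·)) :
    (bumpRow x R).1.Pairwise (· ≤ ·) := by
  induction R with
  | nil => simp [bumpRow]
  | cons y R ih =>
    rw [List.pairwise_cons] at hR
    by_cases hxy : x < y
    · simp only [bumpRow, hxy, if_true]
      rw [List.pairwise_cons]
      exact ⟨fun z hz => (lt_of_lt_of_le hxy (hR.1 z hz)).le, hR.2⟩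
    · simp only [bumpRow, hxy, if_false]
      rw [List.pairwise_cons]
      refine ⟨fun z hz => ?_, ih hR.2⟩
      rcases bump_sub x R z hz with h | h
      · omega
      · exact hR.1 z h

theorem bump_some (x b : ℕ) (R : List ℕ) (hR : R.Pairwise (· ≤ ·)) (h : (bumpRow x R).2 = some b) :
    b ∈ R ∧ x < b ∧ (∀ r ∈ (bumpRow x R).1, r < b → r ≤ x) ∧
    (∀ r ∈ R, r ≠ b → r ∈ (bumpRow x R).1) := by
  induction R with
  | nil => simp [bumpRow] at h
  | cons y R ih =>
    rw [List.pairwise_cons] at hR
    by_cases hxy : x < y
    · simp only [bumpRow, hxy, if_true, Option.some.injEq] at h ⊢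
      subst h
      refine ⟨by simp, hxy, ?_, ?_⟩
      · intro r hr hrb
        rcases List.mem_cons.1 hr with h | h
        · omega
        · have := hR.1 r h; omega
      · intro r hr hrb
        rcases List.mem_cons.1 hr with h | h
        · exact absurd h hrb
        · simp [h]
    · simp only [bumpRow, hxy, if_false] at h ⊢
      obtain ⟨h1, h2, h3, h4⟩ := ih hR.2 h
      refine ⟨by simp [h1], h2, ?_, ?_⟩
      · intro r hr hrb
        rcases List.mem_cons.1 hr with h | h
        · omega
        · exact h3 r h hrb
      · intro r hr hrb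
        rcases List.mem_cons.1 hr with h | h
        · simp [h]
        · simp [h4 r h hrb]

theorem dom_row (x b : ℕ) (R : List ℕ) (hR : R.Pairwise (· ≤ ·)) (h : (bumpRow x R).2 = some b) :
    Dom (b :: (bumpRow x R).1) (R ++ [x]) := by
  obtain ⟨h1, h2, h3, _⟩ := bump_some x b R hR h
  have hs := bump_sorted x R hR
  intro q a
  have hpick : ∀ r ∈ (bumpRow x R).1, r < a → 1 + L q r ≤ L (R ++ [x] ++ q) a := by
    intro r hr hra
    apply L_pick _ _ _ hra
    rcases bump_sub x R r hr with h | h
    · simp [h]
    · simp [h]
  simp only [List.cons_append, L]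
  apply max_le
  · apply L_row _ _ hs _ a (L_skip _ _ a) hpick
  · split_ifs with hba
    · have hb1 : 1 + L ([x] ++ q) b ≤ L (R ++ ([x] ++ q)) a := L_pick R _ h1 hba
      rw [← List.append_assoc] at hb1
      have hx1 : 1 + L q x ≤ L ([x] ++ q) b := L_pick [x] q (by simp) h2
      have hskip : L q b ≤ L ([x] ++ q) b := L_skip _ _ _
      have : L ((bumpRow x R).1 ++ q) b ≤ L ([x] ++ q) b := by
        apply L_row _ _ hs _ b hskip
        intro r hr hrb
        have := L_mono q (h3 r hr hrb)
        omega
      omega
    · omega

/-- reading word: rows from bottom to top -/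
def rwd : List (List ℕ) → List ℕ
  | [] => []
  | R :: rs => rwd rs ++ R

theorem dom_insert (T : List (List ℕ)) : ∀ x, (∀ R ∈ T, R.Pairwise (· ≤ ·)) →
    Dom (rwd (insertTab x T)) (rwd T ++ [x]) ∧ (∀ R ∈ insertTab x T, R.Pairwise (· ≤ ·)) := by
  induction T with
  | nil =>
    intro x _
    refine ⟨by simp [insertTab, rwd]; exact Dom.refl _, by simp [insertTab]⟩
  | cons R rs ih =>
    intro x hs
    have hR := hs R (by simp)
    have hrs : ∀ R' ∈ rs, R'.Pairwise (· ≤ ·) := fun R' h => hs R' (by simp [h])
    cases hb : (bumpRow x R).2 with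
    | none =>
      simp only [insertTab, hb]
      refine ⟨?_, ?_⟩
      · simp only [rwd]
        rw [bump_none x R hb, List.append_assoc]
        exact Dom.refl _
      · intro R' hR'
        rcases List.mem_cons.1 hR' with h | h
        · rw [h]; exact bump_sorted x R hR
        · exact hrs R' h
    | some b =>
      simp only [insertTab, hb]
      obtain ⟨d1, d2⟩ := ih b hrs
      refine ⟨?_, ?_⟩
      · simp only [rwd]
        refine (d1.right _).trans ?_
        rw [List.append_assoc, List.append_assoc]
        exact (dom_row x b R hR hb).left _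
      · intro R' hR'
        rcases List.mem_cons.1 hR' with h | h
        · rw [h]; exact bump_sorted x R hR
        · exact d2 R' h

theorem dom_insAll (u : List ℕ) : ∀ T, (∀ R ∈ T, R.Pairwise (· ≤ ·)) →
    Dom (rwd (insAll T u)) (rwd T ++ u) ∧ (∀ R ∈ insAll T u, R.Pairwise (· ≤ ·)) := by
  induction u with
  | nil => intro T h; exact ⟨by rw [insAll_nil]; simp; exact Dom.refl _, h⟩
  | cons x u ih =>
    intro T h
    rw [insAll_cons]
    obtain ⟨d1, d2⟩ := dom_insert T x h
    obtain ⟨e1, e2⟩ := ih _ d2
    refine ⟨e1.trans ?_, e2⟩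
    have := d1.right u
    rwa [List.append_assoc] at this

/-- first-column property -/
def Col : List (List ℕ) → Prop
  | [] => True
  | R :: rs => (∀ y ∈ rs.getD 0 [], ∃ x ∈ R, x < y) ∧ Col rs

theorem col_insert (T : List (List ℕ)) : ∀ x, (∀ R ∈ T, R.Pairwise (· ≤ ·)) → Col T →
    Col (insertTab x T) := by
  induction T with
  | nil => intro x _ _; simp [insertTab, Col]
  | cons R rs ih =>
    intro x hs hc
    have hR := hs R (by simp)
    have hrs : ∀ R' ∈ rs, R'.Pairwise (· ≤ ·) := fun R' h => hs R' (by simp [h])
    cases hb : (bumpRow x R).2 with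
    | none =>
      simp only [insertTab, hb, Col]
      refine ⟨fun y hy => ?_, hc.2⟩
      obtain ⟨z, hz, hzy⟩ := hc.1 y hy
      rw [bump_none x R hb]
      exact ⟨z, by simp [hz], hzy⟩
    | some b =>
      simp only [insertTab, hb, Col]
      obtain ⟨b1, b2, b3, b4⟩ := bump_some x b R hR hb
      refine ⟨fun y hy => ?_, ih b hrs hc.2⟩
      have hy' : y = b ∨ y ∈ rs.getD 0 [] := by
        cases rs with
        | nil => simp [insertTab] at hy; left; exact hy
        | cons R2 rs2 =>
          simp only [insertTab] at hy
          have : y ∈ (bumpRow b R2).1 := by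
            cases hb2 : (bumpRow b R2).2 <;> simpa [hb2] using hy
          rcases bump_sub b R2 y this with h | h
          · left; exact h
          · right; simpa using h
      rcases hy' with h | h
      · subst h
        exact ⟨x, bump_mem x R, b2⟩
      · obtain ⟨z, hz, hzy⟩ := hc.1 y h
        by_cases hzb : z = b
        · exact ⟨x, bump_mem x R, by omega⟩
        · exact ⟨z, b4 z hz hzb, hzy⟩

theorem col_insAll (u : List ℕ) : ∀ T, (∀ R ∈ T, R.Pairwise (· ≤ ·)) → Col T → Col (insAll T u) := by
  induction u with
  | nil => intro T _ h; exact h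
  | cons x u ih =>
    intro T h hc
    rw [insAll_cons]
    exact ih _ (dom_insert T x h).2 (col_insert T x h hc)

theorem col_chain (r : ℕ) : ∀ (T : List (List ℕ)) (t : ℕ), Col T → t ∈ T.getD r [] →
    ∃ y ∈ T.getD 0 [], ∀ q, r + 1 + L q y ≤ L (rwd T ++ q) (t + 1) := by
  induction r with
  | zero =>
    intro T t hc ht
    refine ⟨t, ht, fun q => ?_⟩
    cases T with
    | nil => simp at ht
    | cons R rs =>
      have ht : t ∈ R := by simpa using ht
      have h1 := L_pick (rwd rs ++ R) q (x := t) (a := t + 1) (by simp [ht]) (by omega)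
      simp only [rwd]
      omega
  | succ r ih =>
    intro T t hc ht
    cases T with
    | nil => simp at ht
    | cons R rs =>
      have ht' : t ∈ rs.getD r [] := by simpa using ht
      obtain ⟨y, hy, hq⟩ := ih rs t hc.2 ht'
      obtain ⟨x, hx, hxy⟩ := hc.1 y hy
      refine ⟨x, by simpa using hx, fun q => ?_⟩
      have h1 := hq (R ++ q)
      have h2 := L_pick R q hx hxy
      simp only [rwd]
      rw [List.append_assoc]
      omega

theorem dec_lemma (u : List ℕ) (r t : ℕ) (ht : t ∈ (insAll [] u).getD r []) :
    r + 1 ≤ L u (t + 1) := by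
  obtain ⟨y, _, hq⟩ := col_chain r _ t (col_insAll u [] (by simp) trivial) ht
  have h1 := hq []
  have h2 := (dom_insAll u [] (by simp)).1 [] (t + 1)
  simp only [rwd, List.nil_append, List.append_nil] at h1 h2
  omega


end PartD

section PartE


variable {n k : ℕ} {W : ℕ → ℕ}

/-- concatenation of `c` blocks starting with block `j` -/
def catF (n k : ℕ) (W : ℕ → ℕ) : ℕ → ℕ → List ℕ
  | 0, _ => []
  | c + 1, j => blk n k W j ++ catF n k W c (j + 1)

theorem ins_cat (c : ℕ) : ∀ j, insAll (tab n k W j) (catF n k W c j) = tab n k W (j + c) := by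
  induction c with
  | zero => intro j; rfl
  | succ c ih =>
    intro j
    rw [catF, insAll_append]
    have : insAll (tab n k W j) (blk n k W j) = tab n k W (j + 1) := rfl
    rw [this, ih, show j + 1 + c = j + (c + 1) by omega]

theorem blk_le (h : 0 < n) (j : ℕ) : (blk n k W j).Pairwise (· ≤ ·) :=
  (blk_sorted h j).imp (fun h => h.le)

theorem L_cat_le (h : 0 < n) (c : ℕ) : ∀ j a, L (catF n k W c j) a ≤ c := by
  induction c with
  | zero => intro j a; simp [catF, L]
  | succ c ih =>
    intro j a
    rw [catF]
    apply L_row _ _ (blk_le h j)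
    · have := ih (j + 1) a; omega
    · intro r _ _
      have := ih (j + 1) r; omega

def As (W : ℕ → ℕ) (j c : ℕ) : ℕ := ∑ l ∈ Finset.range c, asc W (j + l)

theorem As_succ (j c : ℕ) : As W j (c + 1) = asc W j + As W (j + 1) c := by
  unfold As
  rw [Finset.sum_range_succ', add_comm]
  congr 1
  apply Finset.sum_congr rfl
  intro l _
  rw [show j + (l + 1) = j + 1 + l by omega]

theorem L_cat_full (h : Hyp n W) (c : ℕ) : ∀ j a, j + c < n → c + 1 ≤ L (catF n k W (c + 1) j) a →
    W j + As W j c * n < a := by
  induction c with
  | zero =>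
    intro j a hj hL
    by_contra hc
    have : L (catF n k W 1 j) a ≤ 0 := by
      rw [catF]
      apply L_row _ _ (blk_le h.npos j)
      · simp [catF, L]
      · intro r hr hra
        exfalso
        obtain ⟨m, _, e⟩ := mem_blk.1 hr
        simp [As] at hc
        have : 0 ≤ m * n := Nat.zero_le _
        omega
    have hL' : 1 ≤ L (catF n k W 1 j) a := hL
    omega
  | succ c ih =>
    intro j a hj hL
    by_contra hc
    have : L (catF n k W (c + 1 + 1) j) a ≤ c + 1 := by
      rw [catF]
      apply L_row _ _ (blk_le h.npos j)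
      · exact L_cat_le h.npos _ _ _
      · intro r hr hra
        by_contra h2
        have h3 := ih (j + 1) r (by omega) (by omega)
        obtain ⟨m, _, e⟩ := mem_blk.1 hr
        apply hc
        rw [As_succ]
        have w1 := h.wle j (by omega)
        have w2 := h.wpos (j + 1) (by omega)
        have w3 := h.wpos j (by omega)
        have : asc W j + As W (j + 1) c ≤ m := by
          unfold asc
          split_ifs with hd
          · by_contra h4
            have : m ≤ As W (j + 1) c := by omega
            have := Nat.mul_le_mul_right n this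
            omega
          · by_contra h4
            have : m + 1 ≤ As W (j + 1) c := by omega
            have := Nat.mul_le_mul_right n this
            have h5 : (m + 1) * n = m * n + n := by ring
            omega
        have := Nat.mul_le_mul_right n this
        omega
    omega

theorem As_zero (c : ℕ) : As W 0 c = A W c := by
  unfold As A
  simp

theorem last_row (h : Hyp n W) {t : ℕ} (ht : t ∈ Row n k W n (n - 1)) :
    W 0 + A W (n - 1) * n ≤ t := by
  have hn := h.npos
  have e : tab n k W n = insAll [] (catF n k W n 0) := by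
    have := ins_cat (n := n) (k := k) (W := W) n 0
    rw [zero_add] at this
    rw [← this]; rfl
  rw [Row, e] at ht
  have h1 := dec_lemma _ _ _ ht
  have h2 : catF n k W n 0 = catF n k W (n - 1 + 1) 0 := by rw [Nat.sub_add_cancel hn]
  rw [h2] at h1
  have h3 := L_cat_full h (n - 1) 0 (t + 1) (by omega) h1
  rw [As_zero] at h3
  omega

theorem H_le (b : ℕ) : H W (b + 1) ≤ dl W 0 + b := by
  induction b with
  | zero => simp [H]
  | succ b ih =>
    rw [H_succ]
    have : dl W (b + 1) ≤ 1 := by unfold dl; split_ifs <;> omega
    omega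

theorem K_le_zero : K W n 0 ≤ (n : ℤ) - 2 := by
  unfold K
  simp [H]

theorem K_le_pos {b : ℕ} (hb : 0 < b) : K W n b ≤ (n : ℤ) - 3 := by
  obtain ⟨c, rfl⟩ : ∃ c, b = c + 1 := ⟨b - 1, by omega⟩
  unfold K
  have := H_le (W := W) c
  have : (H W (c + 1) : ℤ) ≤ dl W 0 + c := by exact_mod_cast this
  push_cast
  linarith

theorem steady (h : Hyp n W) {b m : ℕ} (hb : b < n) (hm : m < k) (hK : K W n b < m) :
    W b + m * n ∈ Row n k W n (n - 1 - b) := by
  have I := inv_all (k := k) h n le_rfl
  obtain ⟨r, hr⟩ := I.total b m hb hm
  obtain ⟨b', l, h1, h2, e⟩ := I.upper r _ hr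
  have hbb := (h.uniq (b := b) (c := b') (m := m) (l := l) hb (by omega) e).1
  subst hbb
  have := claim_all (k := k) h n le_rfl b hb r b m le_rfl hm (by
    push_cast
    have : (0 : ℤ) < n := by exact_mod_cast h.npos
    nlinarith) hr
  have e : r = n - 1 - b := by omega
  rwa [← e]

/-- with `n` copies everything is in the final position -/
theorem stab_n (h : Hyp n W) (b : ℕ) (hb : b < n) :
    W b + (n - 1) * n ∈ Row n n W n (n - 1 - b) := by
  have hn := h.npos
  apply steady h hb (by omega)
  rcases Nat.eq_zero_or_pos b with h0 | h0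
  · subst h0
    have := K_le_zero (n := n) (W := W)
    have e : ((n - 1 : ℕ) : ℤ) = n - 1 := by omega
    rw [e]; linarith
  · have := K_le_pos (n := n) (W := W) h0
    have e : ((n - 1 : ℕ) : ℤ) = n - 1 := by omega
    rw [e]; linarith

theorem cnt_blk_top (b : ℕ) (h : 0 < n) : cnt (blk n k W b) (W b + k * n) = k := by
  rw [cnt_blk_eq]
  have : (List.range k).countP (fun m => decide (W b + m * n < W b + k * n)) =
      (List.range k).length := by
    rw [List.countP_eq_length]
    intro m hm
    have hm := List.mem_range.1 hm
    have : (m + 1) * n ≤ k * n := Nat.mul_le_mul_right n hm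
    have : m * n + n ≤ k * n := by linarith
    simp only [decide_eq_true_eq]
    omega
  rw [this, List.length_range]

/-- with `n - 1` copies everything is in the final position, if there is a descent -/
theorem stab_pred (h : Hyp n W) (hn : 2 ≤ n) (hA : A W (n - 1) ≤ n - 2) (b : ℕ) (hb : b < n) :
    W b + (n - 2) * n ∈ Row n (n - 1) W n (n - 1 - b) := by
  rcases Nat.eq_zero_or_pos b with h0 | h0
  · subst h0
    have S := stage_all (k := n - 1) h (i := n - 1) (by omega)
    have hrow : ∀ x ∈ Ent n (n - 1) W (n - 1) (n - 1), x ∈ Row n (n - 1) W n (n - 1) := by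
      intro x hx
      have := (S.mem (n - 1) x).2 (Or.inr hx)
      rwa [Nat.sub_add_cancel (by omega : 1 ≤ n)] at this
    have I := inv_all (k := n - 1) h n le_rfl
    have hform : ∀ x ∈ Ent n (n - 1) W (n - 1) (n - 1), ∃ m, A W (n - 1) ≤ m ∧ m < n - 1 ∧
        x = W 0 + m * n := by
      intro x hx
      obtain ⟨b', m, h1, h2, e⟩ := I.upper _ _ (hrow x hx)
      have hb' : b' = 0 := by omega
      subst hb'
      refine ⟨m, ?_, h2, e⟩
      have h3 := last_row h (hrow x hx)
      rw [e] at h3
      by_contra hc
      have : m + 1 ≤ A W (n - 1) := by omega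
      have := Nat.mul_le_mul_right n this
      have h5 : (m + 1) * n = m * n + n := by ring
      omega
    by_contra hnot
    have hnot' : W 0 + (n - 2) * n ∉ Ent n (n - 1) W (n - 1) (n - 1) := by
      intro hx
      apply hnot
      simpa using hrow _ hx
    have hsub : (Ent n (n - 1) W (n - 1) (n - 1)).toFinset ⊆
        (Finset.Ico (A W (n - 1)) (n - 2)).image (fun m => W 0 + m * n) := by
      intro x hx
      rw [List.mem_toFinset] at hx
      obtain ⟨m, h1, h2, e⟩ := hform x hx
      rw [Finset.mem_image]
      refine ⟨m, ?_, e.symm⟩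
      rw [Finset.mem_Ico]
      refine ⟨h1, ?_⟩
      by_contra hc
      have : m = n - 2 := by omega
      subst this
      exact hnot' (e ▸ hx)
    have hnd : (Ent n (n - 1) W (n - 1) (n - 1)).Nodup :=
      (S.sorted (n - 1)).imp (fun h => ne_of_lt h)
    have hcard := Finset.card_le_card hsub
    rw [List.toFinset_card_of_nodup hnd] at hcard
    have hcard2 := hcard.trans Finset.card_image_le
    rw [Nat.card_Ico] at hcard2
    have hch := d_chain (k := n - 1) h (n - 1) (by omega) (W 0 + (n - 1) * n)
    rw [cnt_blk_top 0 h.npos] at hch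
    have hcl : cnt (Ent n (n - 1) W (n - 1) (n - 1)) (W 0 + (n - 1) * n) ≤
        (Ent n (n - 1) W (n - 1) (n - 1)).length := List.countP_le_length
    omega
  · apply steady h hb (by omega)
    have := K_le_pos (n := n) (W := W) h0
    have e : ((n - 2 : ℕ) : ℤ) = n - 2 := by omega
    rw [e]; linarith


end PartE

section Final

variable {n : ℕ}

def WW (w : Equiv.Perm (Fin n)) (b : ℕ) : ℕ := if h : b < n then (w ⟨b, h⟩ : ℕ) + 1 else 0

theorem WW_of (w : Equiv.Perm (Fin n)) {b : ℕ} (h : b < n) : WW w b = (w ⟨b, h⟩ : ℕ) + 1 := by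
  simp [WW, h]

theorem hyp_of (w : Equiv.Perm (Fin n)) (hn : 0 < n) : Hyp n (WW w) := by
  refine ⟨hn, ?_, ?_, ?_⟩
  · intro b hb; rw [WW_of w hb]; omega
  · intro b hb; rw [WW_of w hb]; exact (w ⟨b, hb⟩).2
  · intro b hb c hc h
    rw [WW_of w hb, WW_of w hc] at h
    have : w ⟨b, hb⟩ = w ⟨c, hc⟩ := Fin.ext (by omega)
    have := w.injective this
    simpa using this

theorem cat_eq (k : ℕ) (W : ℕ → ℕ) (c : ℕ) : ∀ j,
    catF n k W c j = ((List.range c).map (fun i => blk n k W (j + i))).flatten := by
  induction c with
  | zero => intro j; simp [catF]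
  | succ c ih =>
    intro j
    rw [catF, ih, List.range_succ_eq_map]
    simp only [List.map_cons, List.map_map, List.flatten_cons, Nat.add_zero]
    congr 2
    apply List.map_congr_left
    intro i _
    simp only [Function.comp]
    rw [show j + 1 + i = j + Nat.succ i by omega]

theorem word_eq (w : Equiv.Perm (Fin n)) (k : ℕ) :
    readingWord (skewTab w k) = catF n k (WW w) n 0 := by
  rw [readingWord, skewTab, List.reverse_reverse, cat_eq]
  congr 1
  apply List.ext_getElem
  · simp
  · intro i h1 h2
    have hi : i < n := by simpa using h1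
    simp [blk, WW_of w hi]

theorem rect_eq (w : Equiv.Perm (Fin n)) (k r : ℕ) :
    (rect (skewTab w k)).getD r [] = Row n k (WW w) n r := by
  rw [rect, word_eq, Row]
  have := ins_cat (n := n) (k := k) (W := WW w) n 0
  rw [zero_add] at this
  rw [← this]; rfl

theorem skew_row (w : Equiv.Perm (Fin n)) (k r : ℕ) (hr : r < n) :
    ((skewTab w k).getD r (0, [])).2 = blk n k (WW w) (n - 1 - r) := by
  have hb : n - 1 - r < n := by omega
  have hl : r < (skewTab w k).length := by simp [skewTab, hr]
  rw [List.getD_eq_getElem _ _ hl]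
  simp only [skewTab, List.getElem_reverse, List.getElem_ofFn, List.length_ofFn]
  simp [blk, WW_of w hb]

theorem stabilizes_iff (w : Equiv.Perm (Fin n)) (hn : 0 < n) (k : ℕ) (hk : 1 ≤ k) :
    Stabilizes w k ↔ ∀ b < n, WW w b + (k - 1) * n ∈ Row n k (WW w) n (n - 1 - b) := by
  have h := hyp_of w hn
  constructor
  · intro hs b hb
    have h1 := hs (n - 1 - b) (by omega) (WW w b + (k - 1) * n) ?_ ?_
    · rwa [rect_eq] at h1
    · rw [skew_row w k _ (by omega)]
      exact mem_blk.2 ⟨k - 1, by omega, by rw [show n - 1 - (n - 1 - b) = b by omega]⟩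
    · have := h.wpos b hb; omega
  · intro hs r hr x hx hlt
    rw [skew_row w k r hr] at hx
    obtain ⟨m, hm, e⟩ := mem_blk.1 hx
    have hb : n - 1 - r < n := by omega
    have hle := h.wle _ hb
    have hmk : m = k - 1 := by
      by_contra hne
      have h1 : m + 1 ≤ k - 1 := by omega
      have h2 := Nat.mul_le_mul_right n h1
      have h3 : (m + 1) * n = m * n + n := by ring
      omega
    subst hmk
    have := hs (n - 1 - r) hb
    rw [show n - 1 - (n - 1 - r) = r by omega] at this
    rw [rect_eq, e]
    exact this

theorem A_le_of_ne (w : Equiv.Perm (Fin n)) (hn : 0 < n) (hw : w ≠ 1) :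
    2 ≤ n ∧ A (WW w) (n - 1) ≤ n - 2 := by
  have h := hyp_of w hn
  have hex : ∃ l < n - 1, asc (WW w) l = 0 := by
    by_contra hcon
    push Not at hcon
    have hup : ∀ l < n - 1, WW w l < WW w (l + 1) := by
      intro l hl
      have := hcon l hl
      unfold asc at this
      by_contra h2
      rw [if_neg h2] at this
      exact this rfl
    have hlow : ∀ b < n, b + 1 ≤ WW w b := by
      intro b
      induction b with
      | zero => intro hb; exact h.wpos 0 hb
      | succ b ih =>
        intro hb
        have := ih (by omega)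
        have := hup b (by omega)
        omega
    have hhigh : ∀ c b, b + c < n → WW w b + c ≤ WW w (b + c) := by
      intro c
      induction c with
      | zero => intro b _; simp
      | succ c ih =>
        intro b hb
        have h1 := ih b (by omega)
        have h2 := hup (b + c) (by omega)
        rw [show b + (c + 1) = b + c + 1 by omega]
        omega
    apply hw
    ext b
    have hb := b.2
    have h1 := hlow b hb
    have h2 := hhigh (n - 1 - b) b (by omega)
    rw [show (b : ℕ) + (n - 1 - b) = n - 1 by omega] at h2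
    have h3 := h.wle (n - 1) (by omega)
    have h4 := WW_of w hb
    simp only [Equiv.Perm.coe_one, id]
    have : (w ⟨b, hb⟩ : ℕ) = b := by omega
    simpa using this
  obtain ⟨l, hl, hl0⟩ := hex
  refine ⟨by omega, ?_⟩
  have : A (WW w) (n - 1) < ∑ _l ∈ Finset.range (n - 1), 1 := by
    unfold A
    apply Finset.sum_lt_sum
    · intro i _; unfold asc; split_ifs <;> omega
    · exact ⟨l, Finset.mem_range.2 hl, by omega⟩
  simp at this
  omega

theorem A_one (hn : 0 < n) : A (WW (1 : Equiv.Perm (Fin n))) (n - 1) = n - 1 := by
  unfold A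
  have : ∀ l ∈ Finset.range (n - 1), asc (WW (1 : Equiv.Perm (Fin n))) l = 1 := by
    intro l hl
    have hl := Finset.mem_range.1 hl
    unfold asc
    rw [WW_of _ (show l < n by omega), WW_of _ (show l + 1 < n by omega)]
    simp
  rw [Finset.sum_congr rfl this]
  simp

/-- Every `w` stabilizes somewhere, and `stab w = n` holds exactly for the identity. -/
theorem result (n : ℕ) (hn : 1 ≤ n) (w : Equiv.Perm (Fin n)) :
    (∃ k, 1 ≤ k ∧ Stabilizes w k) ∧ (stab w = n ↔ w = 1) := by
  have h := hyp_of w hn
  have hsn : Stabilizes w n := by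
    rw [stabilizes_iff w hn n hn]
    exact fun b hb => stab_n h b hb
  refine ⟨⟨n, hn, hsn⟩, ?_⟩
  constructor
  · intro hs
    by_contra hw
    obtain ⟨h2, hA⟩ := A_le_of_ne w hn hw
    have hst : Stabilizes w (n - 1) := by
      rw [stabilizes_iff w hn (n - 1) (by omega)]
      intro b hb
      rw [show n - 1 - 1 = n - 2 by omega]
      exact stab_pred h h2 hA b hb
    have : stab w ≤ n - 1 := Nat.sInf_le ⟨by omega, hst⟩
    omega
  · intro hw
    subst hw
    apply le_antisymm
    · exact Nat.sInf_le ⟨hn, hsn⟩
    · have hne : {k | 1 ≤ k ∧ Stabilizes (1 : Equiv.Perm (Fin n)) k}.Nonempty := ⟨n, hn, hsn⟩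
      obtain ⟨h1, h2⟩ := Nat.sInf_mem hne
      change n ≤ sInf {k | 1 ≤ k ∧ Stabilizes (1 : Equiv.Perm (Fin n)) k}
      set k := sInf {k | 1 ≤ k ∧ Stabilizes (1 : Equiv.Perm (Fin n)) k}
      rw [stabilizes_iff _ hn k h1] at h2
      have h3 := last_row h (h2 0 hn)
      rw [A_one hn] at h3
      by_contra hc
      have : k - 1 + 1 ≤ n - 1 := by omega
      have := Nat.mul_le_mul_right n this
      have h5 : (k - 1 + 1) * n = (k - 1) * n + n := by ring
      omega

end Final

end Pool.Agent.Results.MP_e8bda8_co.StabIdentity
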